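import Pool.Agent.H25.Spread

open Finset Matrix Pool.Agent.H25.Spread

namespace Pool.Agent.Results.MP_8a2148_co.Nine

def A : Matrix (Fin 9) (Fin 9) ℤ :=
  !![0, 1, 1, 0, 1, 1, 0, 0, 0; 1, 0, 0, 1, 0, 0, 1, 1, 0; 0, 1, 0, 1, 1, 1, 0, 0, 0;
     1, 0, 1, 0, 0, 0, 1, 1, 0; 0, 1, 0, 1, 0, 0, 1, 0, 1; 0, 1, 0, 1, 0, 0, 0, 1, 1;
     1, 0, 1, 0, 0, 1, 0, 0, 1; 1, 0, 1, 0, 1, 0, 0, 0, 1; 1, 1, 1, 1, 0, 0, 0, 0, 0]

def E (i j : Fin 9) : Bool := A i j = 1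

lemma lapZ : lap ℤ E = fun i j => (if i = j then 4 else 0) - A i j := by decide +kernel

lemma mv {R : Type} [CommRing R] (x : Fin 9 → R) : lap R E *ᵥ x =
    ![4 * x 0 - x 1 - x 2 - x 4 - x 5, 4 * x 1 - x 0 - x 3 - x 6 - x 7,
      4 * x 2 - x 1 - x 3 - x 4 - x 5, 4 * x 3 - x 0 - x 2 - x 6 - x 7,
      4 * x 4 - x 1 - x 3 - x 6 - x 8, 4 * x 5 - x 1 - x 3 - x 7 - x 8,
      4 * x 6 - x 0 - x 2 - x 5 - x 8, 4 * x 7 - x 0 - x 2 - x 4 - x 8,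
      4 * x 8 - x 0 - x 1 - x 2 - x 3] := by
  rw [← lap_map (Int.castRingHom R), lapZ]
  ext i
  fin_cases i <;> simp [mulVec, dotProduct, Fin.sum_univ_succ, A] <;> ring

lemma s9 {R : Type} [CommRing R] (x : Fin 9 → R) :
    ∑ i, x i = x 0 + x 1 + x 2 + x 3 + x 4 + x 5 + x 6 + x 7 + x 8 := by
  simp [Fin.sum_univ_succ]; ring

lemma q1 (a : Fin 9 → ℝ) (h : ∑ i, a i = 0) :
    4 * a ⬝ᵥ a ≤ a ⬝ᵥ lap ℝ E *ᵥ a ∧ a ⬝ᵥ lap ℝ E *ᵥ a ≤ 5 * a ⬝ᵥ a := by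
  rw [s9] at h
  have h8 : a 8 = -(a 0 + a 1 + a 2 + a 3 + a 4 + a 5 + a 6 + a 7) := by linarith
  simp only [mv, dotProduct, s9]
  simp only [Matrix.cons_val, h8]
  constructor
  · nlinarith [sq_nonneg (a 0 - a 1), sq_nonneg (a 2 - a 3), sq_nonneg (a 4 + a 5),
      sq_nonneg (a 6 + a 7), sq_nonneg (a 0 + a 1 + a 2 + a 3 + a 4 + a 5 + a 6 + a 7)]
  · nlinarith [sq_nonneg (a 0 + a 1), sq_nonneg (a 2 + a 3), sq_nonneg (a 4 - a 5),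
      sq_nonneg (a 6 - a 7), sq_nonneg (a 0 + a 1 + a 2 + a 3 + a 4 + a 5 + a 6 + a 7)]

lemma plus (s p1 p2 p3 u1 u2 u3 : ℝ) (hs : s * s = 5) (h0 : 0 < s) :
    -(p1 * u2 - p2 * u1 + (p1 * u3 - p3 * u1) + (p2 * u3 - p3 * u2)) ≤
      s * ((p1 ^ 2 + p2 ^ 2) / 2 + p3 ^ 2 / 4 + (u1 ^ 2 + u2 ^ 2) / 2 + u3 ^ 2 / 4) := by
  refine le_of_mul_le_mul_left (sub_nonneg.1 ?_) h0
  have : s * (s * ((p1 ^ 2 + p2 ^ 2) / 2 + p3 ^ 2 / 4 + (u1 ^ 2 + u2 ^ 2) / 2 + u3 ^ 2 / 4)) -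
      s * -(p1 * u2 - p2 * u1 + (p1 * u3 - p3 * u1) + (p2 * u3 - p3 * u2)) =
      (s * p1 + u2 + u3) ^ 2 / 2 + (s * p2 - u1 + u3) ^ 2 / 2 + (s * p3 / 2 - u1 - u2) ^ 2 +
        (u1 - u2 + u3 / 2) ^ 2 := by
    linear_combination ((u1 ^ 2 + u2 ^ 2) / 2 + u3 ^ 2 / 4) * hs
  rw [this]; positivity

lemma q2 (s : ℝ) (hs : s * s = 5) (h0 : 0 < s) (a b : Fin 9 → ℝ) (h : ∑ i, a i = 0)
    (h' : ∑ i, b i = 0) : a ⬝ᵥ lap ℝ E *ᵥ b - b ⬝ᵥ lap ℝ E *ᵥ a ≤ a ⬝ᵥ a + b ⬝ᵥ b +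
      (s - 1) * (a ⬝ᵥ lap ℝ E *ᵥ a + b ⬝ᵥ lap ℝ E *ᵥ b - 4 * (a ⬝ᵥ a + b ⬝ᵥ b)) := by
  rw [s9] at h h'
  have h8 : a 8 = -(a 0 + a 1 + a 2 + a 3 + a 4 + a 5 + a 6 + a 7) := by linarith
  have h9 : b 8 = -(b 0 + b 1 + b 2 + b 3 + b 4 + b 5 + b 6 + b 7) := by linarith
  have h2 : 0 ≤ s - 2 := by nlinarith
  have k := plus s (a 0 - a 1) (a 2 - a 3) (a 4 + a 5 - a 6 - a 7)
    (b 0 - b 1) (b 2 - b 3) (b 4 + b 5 - b 6 - b 7) hs h0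
  have k1 := mul_nonneg h2 (sq_nonneg (a 4 + a 5 + a 6 + a 7))
  have k2 := mul_nonneg h2 (sq_nonneg (b 4 + b 5 + b 6 + b 7))
  have k3 := mul_nonneg h2 (sq_nonneg (a 8))
  have k4 := mul_nonneg h2 (sq_nonneg (b 8))
  set r := a 4 + a 5 + a 6 + a 7 - a 0 - a 1 - a 2 - a 3 with hr
  set r' := b 4 + b 5 + b 6 + b 7 - b 0 - b 1 - b 2 - b 3 with hr'
  have k5 := sq_nonneg (r - 3 * a 8)
  have k6 := sq_nonneg (r' - 3 * b 8)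
  have k7 := sq_nonneg (r + 3 * b 8)
  have k8 := sq_nonneg (r' - 3 * a 8)
  have k9 := sq_nonneg (a 4 - a 5 + (b 6 - b 7))
  have k10 := sq_nonneg (a 6 - a 7 - (b 4 - b 5))
  have k11 := sq_nonneg (a 0 + a 1 - a 2 - a 3)
  have k12 := sq_nonneg (b 0 + b 1 - b 2 - b 3)
  simp only [mv, dotProduct, s9]
  simp only [Matrix.cons_val, h8, h9, hr, hr'] at *
  linear_combination k + k1 / 4 + k2 / 4 + k3 / 2 + k4 / 2 + k5 / 48 + k6 / 48 + k7 / 6 + k8 / 6 +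
    k9 / 2 + k10 / 2 + k11 / 4 + k12 / 4

/-- the trapezoid with vertices `4 ± i`, `5 ± i s`. -/
def T (s : ℝ) : Set ℂ :=
  {z | 4 ≤ z.re ∧ z.re ≤ 5 ∧ z.im ≤ 1 + (s - 1) * (z.re - 4) ∧ -z.im ≤ 1 + (s - 1) * (z.re - 4)}

lemma W_T (s : ℝ) (hs : s * s = 5) (h0 : 0 < s) : Wr E ⊆ T s := by
  rintro _ ⟨v, v0, v1, rfl⟩
  have a0 : ∑ i, (v i).re = 0 := by rw [← Complex.re_sum, v0]; rfl
  have b0 : ∑ i, (v i).im = 0 := by rw [← Complex.im_sum, v0]; rfl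
  rw [norm_re] at v1
  have v2 := Complex.ofReal_eq_one.1 v1
  rw [← lap_map Complex.ofRealHom, T, Set.mem_ofPred_eq, form_re, form_im]
  have h1 := q1 _ a0
  have h2 := q1 _ b0
  have h3 := q2 s hs h0 _ _ a0 b0
  have h4 := q2 s hs h0 _ _ b0 a0
  set a := fun i => (v i).re
  set b := fun i => (v i).im
  rw [add_comm (b ⬝ᵥ b), add_comm (b ⬝ᵥ _)] at h4
  rw [v2, mul_one] at h3 h4
  exact ⟨by linarith, by linarith, h3, by linarith⟩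

lemma T_conv (s : ℝ) : Convex ℝ (T s) := by
  rintro x ⟨x1, x2, x3, x4⟩ y ⟨y1, y2, y3, y4⟩ a b ha hb hab
  obtain rfl : b = 1 - a := by linarith
  simp only [T, Set.mem_ofPred_eq, Complex.add_re, Complex.add_im, Complex.smul_re,
    Complex.smul_im, smul_eq_mul]
  refine ⟨by nlinarith, by nlinarith, ?_, ?_⟩
  · nlinarith [mul_le_mul_of_nonneg_left x3 ha, mul_le_mul_of_nonneg_left y3 hb]
  · nlinarith [mul_le_mul_of_nonneg_left x4 ha, mul_le_mul_of_nonneg_left y4 hb]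

lemma T_par (s : ℝ) (hs : 1 ≤ s) {z : ℂ} (hz : z ∈ T s) : ∃ τ ρ : ℝ, 0 ≤ τ ∧ τ ≤ 1 ∧ -1 ≤ ρ ∧ ρ ≤ 1 ∧
    z.re = 4 + τ ∧ z.im = ρ * (1 + (s - 1) * τ) := by
  obtain ⟨h1, h2, h3, h4⟩ := hz
  have : 0 < 1 + (s - 1) * (z.re - 4) := by nlinarith
  exact ⟨z.re - 4, z.im / (1 + (s - 1) * (z.re - 4)), by linarith, by linarith,
    by rw [le_div_iff₀ this]; linarith, by rw [div_le_iff₀ this]; linarith, by ring,
    by field_simp⟩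

lemma split (t ρ : ℝ) (ht : 0 ≤ t) (h1 : -1 ≤ ρ) (h2 : ρ ≤ 1) :
    ∃ c d : ℝ, c ^ 2 + d ^ 2 = t ∧ 2 * c * d = t * ρ := by
  have e1 := Real.mul_self_sqrt (by nlinarith : 0 ≤ t * (1 + ρ))
  have e2 := Real.mul_self_sqrt (by nlinarith : 0 ≤ t * (1 - ρ))
  exact ⟨(√(t * (1 + ρ)) + √(t * (1 - ρ))) / 2, (√(t * (1 + ρ)) - √(t * (1 - ρ))) / 2,
    by linear_combination e1 / 2 + e2 / 2, by linear_combination e1 / 2 - e2 / 2⟩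

lemma T_W (s : ℝ) (hs : s * s = 5) (h0 : 0 < s) : T s ⊆ Wr E := by
  intro z hz
  obtain ⟨τ, ρ, t0, t1, r0, r1, hr, hi⟩ := T_par s (by nlinarith) hz
  obtain ⟨c, d, h1, h2⟩ := split (τ / 20) ρ (by linarith) r0 r1
  obtain ⟨e, f, h3, h4⟩ := split ((1 - τ) / 2) ρ (by linarith) r0 r1
  refine ⟨![⟨s * c, d⟩, ⟨-(s * c), -d⟩, ⟨s * c, -d⟩, ⟨-(s * c), d⟩, ⟨e, -2 * d⟩, ⟨-e, -2 * d⟩,
    ⟨0, 2 * d - f⟩, ⟨0, 2 * d + f⟩, 0], ?_, ?_, ?_⟩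
  · rw [s9]; apply Complex.ext <;> simp <;> ring
  · rw [norm_re, Complex.ofReal_eq_one]
    simp only [dotProduct, s9]
    simp
    linear_combination 4 * c ^ 2 * hs + 20 * h1 + 2 * h3
  · rw [← lap_map Complex.ofRealHom]
    apply Complex.ext
    · rw [form_re, hr]
      simp only [mv, dotProduct, s9]
      simp
      linear_combination -20 * c ^ 2 * hs - 100 * h1 - 8 * h3
    · rw [form_im, hi]
      simp only [mv, dotProduct, s9]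
      simp
      linear_combination -20 * s * h2 - 2 * h4

open Complex in
lemma ex : ∃ Q : Matrix (Fin 9) (Fin (9 - 1)) ℂ, Restrictor Q := by
  let e : EuclideanSpace ℂ (Fin 9) := WithLp.toLp 2 fun _ => 1
  have he : e ≠ 0 := fun h => by simpa [e] using congrArg (· 0) h
  have : Fact (Module.finrank ℂ (EuclideanSpace ℂ (Fin 9)) = 8 + 1) := ⟨by simp⟩
  let b := OrthonormalBasis.fromOrthogonalSpanSingleton (𝕜 := ℂ) 8 he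
  have hm : ∀ x : EuclideanSpace ℂ (Fin 9), x ∈ (ℂ ∙ e)ᗮ ↔ ∑ i, x i = 0 := fun x => by
    rw [Submodule.mem_orthogonal_singleton_iff_inner_right]
    simp [e, PiLp.inner_apply]
  refine ⟨Matrix.of fun i k => (b k : EuclideanSpace ℂ (Fin 9)) i, ?_, fun x => ⟨fun hx => ?_, ?_⟩⟩
  · ext k l
    have := orthonormal_iff_ite.1 b.orthonormal k l
    rw [Submodule.coe_inner, PiLp.inner_apply] at this
    simp only [mul_apply, conjTranspose_apply, of_apply, one_apply]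
    rw [← this]
    exact sum_congr rfl fun i _ => by simp [mul_comm]
  · refine ⟨b.repr ⟨WithLp.toLp 2 x, (hm _).2 hx⟩, funext fun i => ?_⟩
    have := congrArg (fun v : (ℂ ∙ e)ᗮ => (v : EuclideanSpace ℂ (Fin 9)) i)
      (b.sum_repr ⟨WithLp.toLp 2 x, (hm _).2 hx⟩)
    simp only [Submodule.coe_sum, Submodule.coe_smul, WithLp.ofLp_sum, Finset.sum_apply,
      PiLp.smul_apply, smul_eq_mul] at this
    rw [← this]
    exact sum_congr rfl fun k _ => mul_comm _ _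
  · rintro ⟨y, rfl⟩
    simp only [mulVec, dotProduct, of_apply]
    rw [sum_comm]
    exact sum_eq_zero fun k _ => by rw [← sum_mul, (hm _).1 (b k).2, zero_mul]

theorem result : ∃ E : Fin 9 → Fin 9 → Bool, (∀ i, E i i = false) ∧
    IsLeast (vals E) 4 ∧ IsGreatest (vals E) 5 ∧
    (∃ Q : Matrix (Fin 9) (Fin (9 - 1)) ℂ, Restrictor Q) ∧
    ∀ Q : Matrix (Fin 9) (Fin (9 - 1)) ℂ, Restrictor Q → Polygonal E Q := by
  have h2 : √2⁻¹ * √2⁻¹ = 2⁻¹ := Real.mul_self_sqrt (by norm_num)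
  refine ⟨E, by decide, ⟨⟨![0, 0, 0, 0, √2⁻¹, -√2⁻¹, 0, 0, 0], ?_, ?_, ?_⟩, ?_⟩,
    ⟨⟨![√2⁻¹, -√2⁻¹, 0, 0, 0, 0, 0, 0, 0], ?_, ?_, ?_⟩, ?_⟩, ex, fun Q hQ => ?_⟩
  · simp only [s9, Matrix.cons_val]; ring
  · simp only [dotProduct, s9, Matrix.cons_val]; linarith
  · simp only [mv, dotProduct, s9, Matrix.cons_val]; linarith
  · rintro _ ⟨x, x0, x1, rfl⟩; have := (q1 x x0).1; rw [x1] at this; linarith
  · simp only [s9, Matrix.cons_val]; ring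
  · simp only [dotProduct, s9, Matrix.cons_val]; linarith
  · simp only [mv, dotProduct, s9, Matrix.cons_val]; linarith
  · rintro _ ⟨x, x0, x1, rfl⟩; have := (q1 x x0).2; rw [x1] at this; linarith
  have h0 : 0 < √5 := by positivity
  have hs : √5 * √5 = 5 := Real.mul_self_sqrt (by norm_num)
  set s := √5
  refine Set.Subset.antisymm (fun z hz => ?_) ((convexHull_min (fun l hl => ?_) (T_conv s)).trans
    (T_W s hs h0))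
  swap
  · obtain ⟨x, hx, x0, t, h⟩ := (spec_Q hQ (by omega) _ l).1 hl
    exact W_T s hs h0 (spec_mem_W E l t x hx x0 h)
  obtain ⟨τ, ρ, t0, t1, r0, r1, hr, hi⟩ := T_par s (by nlinarith) (W_T s hs h0 hz)
  set H := convexHull ℝ (spectrum ℂ (Qᴴ * lap ℂ E * Q))
  have hc : Convex ℝ H := convex_convexHull ℝ _
  have m1 : ∀ σ : ℝ, σ * σ = 1 → (⟨4, σ⟩ : ℂ) ∈ H := fun σ hσ =>
    subset_convexHull ℝ _ ((spec_Q hQ (by omega) _ _).2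
      ⟨![0, 0, 0, 0, ⟨1, 0⟩, ⟨-1, 0⟩, ⟨0, -σ⟩, ⟨0, σ⟩, 0],
        fun h => by simpa using congrArg Complex.re (congrFun h 4),
        by rw [s9]; apply Complex.ext <;> simp, 0, by
          rw [mv]; ext i; fin_cases i <;> apply Complex.ext <;> simp <;> linarith⟩)
  have m2 : ∀ σ : ℝ, σ * σ = 5 → (⟨5, σ⟩ : ℂ) ∈ H := fun σ hσ =>
    subset_convexHull ℝ _ ((spec_Q hQ (by omega) _ _).2
      ⟨![⟨σ, 1⟩, ⟨-σ, -1⟩, ⟨σ, -1⟩, ⟨-σ, 1⟩, ⟨0, -2⟩, ⟨0, -2⟩, ⟨0, 2⟩, ⟨0, 2⟩, 0],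
        fun h => by simpa using congrArg Complex.im (congrFun h 0),
        by rw [s9]; apply Complex.ext <;> simp, 0, by
          rw [mv]; ext i; fin_cases i <;> apply Complex.ext <;> simp <;> linarith⟩)
  have p : 0 ≤ (1 + ρ) / 2 := by linarith
  have p' : 0 ≤ (1 - ρ) / 2 := by linarith
  have := hc (hc (m1 1 (by ring)) (m1 (-1) (by ring)) p p' (by ring))
    (hc (m2 s hs) (m2 (-s) (by linarith)) p p' (by ring)) (sub_nonneg.2 t1) t0 (by ring)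
  refine (Complex.ext ?_ ?_ : _ = z) ▸ this
  · rw [hr]; simp; ring
  · rw [hi]; simp; ring

end Pool.Agent.Results.MP_8a2148_co.Nine
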